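import Mathlib

set_option autoImplicit false

namespace Pool.Agent.H.MP_bcf3b3_co
open Classical

variable {V : Type} {G : SimpleGraph V}

def MP (G : SimpleGraph V) (k : ℕ) : Prop :=
  ∃ S : Finset V, S.card = k ∧
    ∀ v : V, ∀ r : ℕ, 1 ≤ r → (S.filter (fun u => G.dist v u ≤ r)).card ≤ r

def Lip (G : SimpleGraph V) (x : ℕ → V) : Prop := ∀ i, G.dist (x i) (x (i + 1)) ≤ 1

lemma Lip.le (hc : G.Connected) {x : ℕ → V} (h : Lip G x) (i n : ℕ) :
    G.dist (x i) (x (i + n)) ≤ n := by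
  induction n with
  | zero => simp
  | succ n ih =>
    have := hc.dist_triangle (u := x i) (v := x (i + n)) (w := x (i + n + 1))
    have := h (i + n)
    rw [← add_assoc]; omega

lemma Lip.le' (hc : G.Connected) {x : ℕ → V} (h : Lip G x) (i j : ℕ) :
    G.dist (x i) (x j) ≤ (j - i) + (i - j) := by
  rcases le_total i j with hij | hij
  · have := h.le hc i (j - i)
    rw [Nat.add_sub_cancel' hij] at this; omega
  · have := h.le hc j (i - j)
    rw [Nat.add_sub_cancel' hij, SimpleGraph.dist_comm] at this; omega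

lemma path (hc : G.Connected) (u v : V) :
    ∃ x : ℕ → V, x 0 = u ∧ Lip G x ∧ ∀ n, G.dist u v ≤ n → x n = v := by
  obtain ⟨w, hw⟩ := hc.exists_walk_length_eq_dist u v
  refine ⟨w.getVert, w.getVert_zero, fun i => ?_, fun n hn => w.getVert_of_length_le (by omega)⟩
  by_cases hi : i < w.length
  · exact (SimpleGraph.dist_eq_one_iff_adj.2 (w.adj_getVert_succ hi)).le
  · rw [w.getVert_of_length_le (by omega), w.getVert_of_length_le (by omega)]; simp

lemma geo (hc : G.Connected) (u v : V) (R : ℕ) (h : R ≤ G.dist u v) :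
    ∃ x : ℕ → V, x 0 = u ∧ Lip G x ∧ R ≤ G.dist (x 0) (x R) := by
  obtain ⟨x, h0, h1, h2⟩ := path hc u v
  refine ⟨x, h0, h1, ?_⟩
  have a1 := hc.dist_triangle (u := u) (v := x R) (w := v)
  have a2 := h1.le' hc R (G.dist u v)
  rw [h2 _ le_rfl] at a2
  rw [h0]; omega

lemma mp_of_idx (hc : G.Connected) (k : ℕ) (pt : ℕ → V)
    (h : ∀ r, 1 ≤ r → r < k → ∀ T : Finset ℕ, (∀ i ∈ T, i < k) →
      (∀ i ∈ T, ∀ j ∈ T, G.dist (pt i) (pt j) ≤ 2 * r) → T.card ≤ r) : MP G k := by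
  have key : ∀ v r, 1 ≤ r → ((Finset.range k).filter (fun i => G.dist v (pt i) ≤ r)).card ≤ r := by
    intro v r hr
    by_cases hk : r < k
    · refine h r hr hk _ (fun i hi => Finset.mem_range.1 (Finset.mem_filter.1 hi).1) ?_
      intro i hi j hj
      have a1 := (Finset.mem_filter.1 hi).2
      have a2 := (Finset.mem_filter.1 hj).2
      have a3 := hc.dist_triangle (u := pt i) (v := v) (w := pt j)
      rw [SimpleGraph.dist_comm] at a1
      omega
    · refine (Finset.card_filter_le _ _).trans (by simp; omega)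
  have inj : Set.InjOn pt (Finset.range k : Set ℕ) := by
    intro i hi j hj hij
    by_contra hne
    have h1 := key (pt i) 1 le_rfl
    have h2 : ({i, j} : Finset ℕ) ⊆
        (Finset.range k).filter (fun l => G.dist (pt i) (pt l) ≤ 1) := by
      intro l hl
      simp only [Finset.mem_insert, Finset.mem_singleton] at hl
      rcases hl with rfl | rfl
      · exact Finset.mem_filter.2 ⟨hi, by simp⟩
      · exact Finset.mem_filter.2 ⟨hj, by rw [hij]; simp⟩
    have := Finset.card_le_card h2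
    rw [Finset.card_pair hne] at this; omega
  refine ⟨(Finset.range k).image pt, by rw [Finset.card_image_of_injOn inj]; simp, fun v r hr => ?_⟩
  rw [Finset.filter_image]
  exact Finset.card_image_le.trans (key v r hr)

lemma ext (T : Finset ℕ) (s e : ℕ) : ∃ n, (T.filter (fun i => s ≤ i ∧ i < e)).card = n ∧ (n = 0 ∨
    ∃ a ∈ T, ∃ b ∈ T, s ≤ a ∧ a ≤ b ∧ b < e ∧ n + a ≤ b + 1) := by
  refine ⟨_, rfl, ?_⟩
  rcases (T.filter (fun i => s ≤ i ∧ i < e)).eq_empty_or_nonempty with h | h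
  · exact Or.inl (by rw [h]; rfl)
  · have a1 := Finset.mem_filter.1 (Finset.min'_mem _ h)
    have a2 := Finset.mem_filter.1 (Finset.max'_mem _ h)
    have a3 := Finset.min'_le_max' _ h
    refine Or.inr ⟨_, a1.1, _, a2.1, a1.2.1, a3, a2.2.2, ?_⟩
    have : T.filter (fun i => s ≤ i ∧ i < e) ⊆ Finset.Icc (Finset.min' _ h) (Finset.max' _ h) :=
      fun i hi => Finset.mem_Icc.2 ⟨Finset.min'_le _ _ hi, Finset.le_max' _ _ hi⟩
    have := Finset.card_le_card this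
    rw [Nat.card_Icc] at this; omega

lemma cut (T : Finset ℕ) (s t e : ℕ) : (T.filter (fun i => s ≤ i ∧ i < e)).card ≤
    (T.filter (fun i => s ≤ i ∧ i < t)).card + (T.filter (fun i => t ≤ i ∧ i < e)).card := by
  refine le_trans (Finset.card_le_card ?_) (Finset.card_union_le _ _)
  intro i hi
  simp only [Finset.mem_union, Finset.mem_filter] at hi ⊢
  by_cases h : i < t
  · exact Or.inl ⟨hi.1, hi.2.1, h⟩
  · exact Or.inr ⟨hi.1, by omega, hi.2.2⟩

lemma full (T : Finset ℕ) (k : ℕ) (h : ∀ i ∈ T, i < k) :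
    T.card = (T.filter (fun i => 0 ≤ i ∧ i < k)).card := by
  rw [Finset.filter_true_of_mem]; exact fun i hi => ⟨Nat.zero_le _, h i hi⟩

lemma far (hc : G.Connected) {a b s t : V} {D n1 n2 n3 : ℕ} (h : D ≤ G.dist a b)
    (h1 : G.dist a s ≤ n1) (h2 : G.dist s t ≤ n2) (h3 : G.dist t b ≤ n3) : D ≤ n1 + n2 + n3 := by
  have := hc.dist_triangle (u := a) (v := s) (w := b)
  have := hc.dist_triangle (u := s) (v := t) (w := b)
  omega

lemma spider (hc : G.Connected) (k m a0 p R c : ℕ) (x y : ℕ → V) (hx : Lip G x) (hy : Lip G y)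
    (hR : R + 1 = 2 * k) (hck : c + 1 = k) (h0 : y 0 = x c) (h1 : R ≤ G.dist (x 0) (x R))
    (h2 : R ≤ G.dist (y 0) (y R))
    (h : (k = 3 * m + 1 ∧ a0 = 0 ∧ p = 2 * m + 1) ∨ (k = 3 * m + 2 ∧ a0 = 0 ∧ p = 2 * m + 2) ∨
      (k = 3 * m ∧ a0 = 2 ∧ p = 2 * m ∧ k ≤ G.dist (x R) (y R))) : MP G k := by
  refine mp_of_idx hc k (fun i => if i < p then x (a0 + 3 * i) else y (R - 3 * (i - p))) ?_
  intro r hr hrk T hT hd
  have hPP : ∀ i ∈ T, ∀ j ∈ T, i < p → j < p → 3 * j ≤ 3 * i + 2 * r := by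
    intro i hi j hj hip hjp
    have a1 := hd i hi j hj
    simp only [hip, hjp, if_true] at a1
    have := far hc h1 (hx.le' hc _ _) a1 (hx.le' hc _ _)
    omega
  have hQQ : ∀ i ∈ T, ∀ j ∈ T, p ≤ i → p ≤ j → 3 * j ≤ 3 * i + 2 * r := by
    intro i hi j hj hip hjp
    have a1 := hd j hj i hi
    simp only [not_lt.2 hip, not_lt.2 hjp, if_false] at a1
    have := far hc h2 (hy.le' hc _ _) a1 (hy.le' hc _ _)
    have := hT j hj
    omega
  have hPQ : ∀ i ∈ T, ∀ j ∈ T, i < p → p ≤ j →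
      (a0 + 3 * i ≤ c → R + 3 * p + a0 + 3 * i ≤ c + 2 * r + 3 * j) ∧
      (c ≤ a0 + 3 * i → R + 3 * p + c ≤ a0 + 3 * i + 2 * r + 3 * j) ∧
      (a0 = 2 → k + 3 * p + a0 + 3 * i ≤ R + 2 * r + 3 * j) := by
    intro i hi j hj hip hjp
    have a1 := hd i hi j hj
    simp only [hip, not_lt.2 hjp, if_true, if_false] at a1
    have a4 := hx.le' hc c (a0 + 3 * i)
    rw [← h0] at a4
    have a2 := far hc h2 a4 a1 (hy.le' hc _ _)
    have := hT j hj
    clear a4
    refine ⟨by omega, by omega, fun ha => ?_⟩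
    have h3 : k ≤ G.dist (x R) (y R) := by omega
    have a3 := far hc h3 (hx.le' hc _ _) a1 (hy.le' hc _ _)
    omega
  obtain ⟨s, hs⟩ : ∃ s, a0 + 3 * s ≤ c + 3 ∧ c < a0 + 3 * s := ⟨(c + 3 - a0) / 3, by omega⟩
  have hsp : s ≤ p := by omega
  have h' : (k = 3 * m + 1 ∧ a0 = 0 ∧ p = 2 * m + 1) ∨ (k = 3 * m + 2 ∧ a0 = 0 ∧ p = 2 * m + 2) ∨
      (k = 3 * m ∧ a0 = 2 ∧ p = 2 * m) := by omega
  have c1 := full T k hT
  have c2 := cut T 0 s k
  have c3 := cut T s p k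
  obtain ⟨n1, e1, f1⟩ := ext T 0 s
  obtain ⟨n2, e2, f2⟩ := ext T s p
  obtain ⟨n3, e3, f3⟩ := ext T p k
  have hn : T.card ≤ n1 + n2 + n3 := by
    clear f1 f2 f3; omega
  refine hn.trans ?_
  clear hn c1 c2 c3 e1 e2 e3 hd h1 h2 h0 h
  rcases f1 with rfl | ⟨a1, ha1, b1, hb1, g1⟩ <;> rcases f2 with rfl | ⟨a2, ha2, b2, hb2, g2⟩ <;>
    rcases f3 with rfl | ⟨a3, ha3, b3, hb3, g3⟩
  · omega
  · have := hQQ a3 ha3 b3 hb3 (by omega) (by omega); omega
  · have := hPP a2 ha2 b2 hb2 (by omega) (by omega); omega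
  · have := hPP a2 ha2 b2 hb2 (by omega) (by omega)
    have := hQQ a3 ha3 b3 hb3 (by omega) (by omega)
    have := (hPQ a2 ha2 a3 ha3 (by omega) (by omega)).2.1 (by omega)
    have := (hPQ a2 ha2 a3 ha3 (by omega) (by omega)).2.2
    rcases h' with ⟨rfl, rfl, rfl⟩ | ⟨rfl, rfl, rfl⟩ | ⟨rfl, rfl, rfl⟩ <;> omega
  · have := hPP a1 ha1 b1 hb1 (by omega) (by omega); omega
  · have := hPP a1 ha1 b1 hb1 (by omega) (by omega)
    have := hQQ a3 ha3 b3 hb3 (by omega) (by omega)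
    have := (hPQ b1 hb1 a3 ha3 (by omega) (by omega)).1 (by omega)
    rcases h' with ⟨rfl, rfl, rfl⟩ | ⟨rfl, rfl, rfl⟩ | ⟨rfl, rfl, rfl⟩ <;> omega
  · have := hPP a1 ha1 b2 hb2 (by omega) (by omega); omega
  · have := hPP a1 ha1 b2 hb2 (by omega) (by omega)
    have := hQQ a3 ha3 b3 hb3 (by omega) (by omega)
    have := (hPQ b1 hb1 a3 ha3 (by omega) (by omega)).1 (by omega)
    have := (hPQ a2 ha2 a3 ha3 (by omega) (by omega)).2.1 (by omega)
    rcases h' with ⟨rfl, rfl, rfl⟩ | ⟨rfl, rfl, rfl⟩ | ⟨rfl, rfl, rfl⟩ <;> omega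

end Pool.Agent.H.MP_bcf3b3_co
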