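import Pool.Agent.H.MP_bcf3b3_co.A

set_option autoImplicit false

namespace Pool.Agent.H.MP_bcf3b3_co
open Classical

variable {V : Type} {G : SimpleGraph V}

lemma arith (m r : ℕ) (hm : 2 ≤ m) (hr : 1 ≤ r) (hrk : r < 3 * m) (T : Finset ℕ)
    (hT : ∀ i ∈ T, i < 3 * m)
    (hA : ∀ i ∈ T, ∀ j ∈ T, 2 ≤ i → 2 ≤ j → j ≤ 2 * m → 3 * j ≤ 3 * i + 2 * r)
    (hB : ∀ i ∈ T, ∀ j ∈ T, 2 ≤ i → 2 * m < j → 12 * m ≤ 3 * i + 2 * r + 3 * j)
    (hC : ∀ i ∈ T, ∀ j ∈ T, m ≤ i → m ≤ j → 3 * j ≤ 3 * i + 2 * r)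
    (hD : ∀ i ∈ T, ∀ j ∈ T, 2 ≤ i → i < m → m ≤ j → 3 * j + 3 * i ≤ 2 * r + 6 * m)
    (h1A : 1 ∈ T → ∀ j ∈ T, 2 ≤ j → j ≤ 2 * m → 3 * j ≤ 2 * r + 1)
    (h1B : 1 ∈ T → ∀ j ∈ T, 2 * m < j → 12 * m ≤ 2 * r + 3 * j + 1)
    (h1C : 1 ∈ T → ∀ j ∈ T, m ≤ j → 3 * j + 1 ≤ 2 * r + 6 * m)
    (h01 : 0 ∈ T → 1 ∈ T → 2 ≤ r)
    (h0A : 0 ∈ T → ∀ j ∈ T, 2 ≤ j → j ≤ m → 3 * j + 2 ≤ 2 * r)
    (h0B : 0 ∈ T → ∀ j ∈ T, m < j → 6 * m + 4 ≤ 2 * r + 3 * j)
    (h0C : 0 ∈ T → ∀ j ∈ T, 2 ≤ j → j ≤ 2 * m → 3 * j ≤ 2 * r + 4)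
    (h0D : 0 ∈ T → ∀ j ∈ T, 2 * m < j → 12 * m ≤ 2 * r + 3 * j + 4) : T.card ≤ r := by
  have c1 := full T _ hT
  have c2 := cut T 0 1 (3 * m)
  have c3 := cut T 1 2 (3 * m)
  have c4 := cut T 2 m (3 * m)
  have c5 := cut T m (m + 1) (3 * m)
  have c6 := cut T (m + 1) (2 * m + 1) (3 * m)
  obtain ⟨n0, e0, f0⟩ := ext T 0 1
  obtain ⟨n1, e1, f1⟩ := ext T 1 2
  obtain ⟨n2, e2, f2⟩ := ext T 2 m
  obtain ⟨n3, e3, f3⟩ := ext T m (m + 1)
  obtain ⟨n4, e4, f4⟩ := ext T (m + 1) (2 * m + 1)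
  obtain ⟨n5, e5, f5⟩ := ext T (2 * m + 1) (3 * m)
  have hn : T.card ≤ n0 + n1 + n2 + n3 + n4 + n5 := by
    clear f0 f1 f2 f3 f4 f5; omega
  refine hn.trans ?_
  clear hn c1 c2 c3 c4 c5 c6 e0 e1 e2 e3 e4 e5
  have f0' : n0 = 0 ∨ (0 ∈ T ∧ n0 ≤ 1) := by
    rcases f0 with h | ⟨a, ha, b, hb, g⟩
    · exact Or.inl h
    · exact Or.inr ⟨(show a = 0 by omega) ▸ ha, by omega⟩
  have f1' : n1 = 0 ∨ (1 ∈ T ∧ n1 ≤ 1) := by
    rcases f1 with h | ⟨a, ha, b, hb, g⟩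
    · exact Or.inl h
    · exact Or.inr ⟨(show a = 1 by omega) ▸ ha, by omega⟩
  have f3' : n3 = 0 ∨ (m ∈ T ∧ n3 ≤ 1) := by
    rcases f3 with h | ⟨a, ha, b, hb, g⟩
    · exact Or.inl h
    · exact Or.inr ⟨(show a = m by omega) ▸ ha, by omega⟩
  have f2' : n2 = 0 ∨ ∃ a ∈ T, ∃ b ∈ T, 2 ≤ a ∧ 2 ≤ b ∧ b ≤ 2 * m ∧ b < m ∧ n2 + a ≤ b + 1 := by
    rcases f2 with h | ⟨a, ha, b, hb, g⟩
    · exact Or.inl h
    · exact Or.inr ⟨a, ha, b, hb, by omega⟩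
  have f4' : n4 = 0 ∨ ∃ a ∈ T, ∃ b ∈ T, m < a ∧ 2 ≤ b ∧ m ≤ b ∧ b ≤ 2 * m ∧ n4 + a ≤ b + 1 := by
    rcases f4 with h | ⟨a, ha, b, hb, g⟩
    · exact Or.inl h
    · exact Or.inr ⟨a, ha, b, hb, by omega⟩
  have f5' : n5 = 0 ∨ ∃ a ∈ T, ∃ b ∈ T, 2 * m < a ∧ m ≤ a ∧ m ≤ b ∧ b < 3 * m ∧
      n5 + a ≤ b + 1 := by
    rcases f5 with h | ⟨a, ha, b, hb, g⟩
    · exact Or.inl h
    · exact Or.inr ⟨a, ha, b, hb, by omega⟩
  have m2 : m ≤ 2 * m := by omega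
  clear f0 f1 f2 f3 f4 f5 hT
  obtain ⟨u, hu⟩ : ∃ u, r = 3 * u ∨ r = 3 * u + 1 ∨ r = 3 * u + 2 := ⟨r / 3, by omega⟩
  rcases f0' with rfl | ⟨z0, g0⟩ <;> rcases f1' with rfl | ⟨z1, g1⟩ <;>
    rcases f2' with rfl | ⟨a2, ha2, b2, hb2, u2, v2, w2, x2, g2⟩ <;>
    rcases f3' with rfl | ⟨z3, g3⟩ <;>
    rcases f4' with rfl | ⟨a4, ha4, b4, hb4, u4, v4, w4, x4, g4⟩ <;>
    rcases f5' with rfl | ⟨a5, ha5, b5, hb5, u5, v5, w5, x5, g5⟩
  · omega
  · have := hC a5 ha5 b5 hb5 v5 w5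
    rcases hu with rfl | rfl | rfl <;> omega
  · have := hC a4 ha4 b4 hb4 u4.le w4
    rcases hu with rfl | rfl | rfl <;> omega
  · have := hC a4 ha4 b4 hb4 u4.le w4
    have := hC a4 ha4 b5 hb5 u4.le w5
    have := hC a5 ha5 b5 hb5 v5 w5
    rcases hu with rfl | rfl | rfl <;> omega
  · omega
  · have := hC m z3 b5 hb5 le_rfl w5
    have := hC a5 ha5 b5 hb5 v5 w5
    rcases hu with rfl | rfl | rfl <;> omega
  · have := hC m z3 b4 hb4 le_rfl w4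
    have := hC a4 ha4 b4 hb4 u4.le w4
    rcases hu with rfl | rfl | rfl <;> omega
  · have := hC m z3 b4 hb4 le_rfl w4
    have := hC m z3 b5 hb5 le_rfl w5
    have := hC a4 ha4 b4 hb4 u4.le w4
    have := hC a4 ha4 b5 hb5 u4.le w5
    have := hC a5 ha5 b5 hb5 v5 w5
    rcases hu with rfl | rfl | rfl <;> omega
  · have := hA a2 ha2 b2 hb2 u2 v2 w2
    rcases hu with rfl | rfl | rfl <;> omega
  · have := hA a2 ha2 b2 hb2 u2 v2 w2
    have := hB a2 ha2 a5 ha5 u2 u5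
    have := hC a5 ha5 b5 hb5 v5 w5
    have := hD b2 hb2 b5 hb5 v2 x2 w5
    rcases hu with rfl | rfl | rfl <;> omega
  · have := hA a2 ha2 b2 hb2 u2 v2 w2
    have := hA a2 ha2 b4 hb4 u2 v4 x4
    have := hC a4 ha4 b4 hb4 u4.le w4
    rcases hu with rfl | rfl | rfl <;> omega
  · have := hA a2 ha2 b2 hb2 u2 v2 w2
    have := hA a2 ha2 b4 hb4 u2 v4 x4
    have := hB a2 ha2 a5 ha5 u2 u5
    have := hC a4 ha4 b4 hb4 u4.le w4
    have := hC a4 ha4 b5 hb5 u4.le w5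
    have := hC a5 ha5 b5 hb5 v5 w5
    have := hD b2 hb2 b5 hb5 v2 x2 w5
    rcases hu with rfl | rfl | rfl <;> omega
  · have := hA a2 ha2 b2 hb2 u2 v2 w2
    have := hA a2 ha2 m z3 u2 hm m2
    rcases hu with rfl | rfl | rfl <;> omega
  · have := hA a2 ha2 b2 hb2 u2 v2 w2
    have := hA a2 ha2 m z3 u2 hm m2
    have := hB a2 ha2 a5 ha5 u2 u5
    have := hC m z3 b5 hb5 le_rfl w5
    have := hC a5 ha5 b5 hb5 v5 w5
    have := hD b2 hb2 b5 hb5 v2 x2 w5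
    rcases hu with rfl | rfl | rfl <;> omega
  · have := hA a2 ha2 b2 hb2 u2 v2 w2
    have := hA a2 ha2 m z3 u2 hm m2
    have := hA a2 ha2 b4 hb4 u2 v4 x4
    have := hC m z3 b4 hb4 le_rfl w4
    have := hC a4 ha4 b4 hb4 u4.le w4
    rcases hu with rfl | rfl | rfl <;> omega
  · have := hA a2 ha2 b2 hb2 u2 v2 w2
    have := hA a2 ha2 m z3 u2 hm m2
    have := hA a2 ha2 b4 hb4 u2 v4 x4
    have := hB a2 ha2 a5 ha5 u2 u5
    have := hC m z3 b4 hb4 le_rfl w4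
    have := hC m z3 b5 hb5 le_rfl w5
    have := hC a4 ha4 b4 hb4 u4.le w4
    have := hC a4 ha4 b5 hb5 u4.le w5
    have := hC a5 ha5 b5 hb5 v5 w5
    have := hD b2 hb2 b5 hb5 v2 x2 w5
    rcases hu with rfl | rfl | rfl <;> omega
  · omega
  · have := hC a5 ha5 b5 hb5 v5 w5
    have := h1B z1 a5 ha5 u5
    have := h1C z1 b5 hb5 w5
    rcases hu with rfl | rfl | rfl <;> omega
  · have := hC a4 ha4 b4 hb4 u4.le w4
    have := h1A z1 b4 hb4 v4 x4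
    rcases hu with rfl | rfl | rfl <;> omega
  · have := hC a4 ha4 b4 hb4 u4.le w4
    have := hC a4 ha4 b5 hb5 u4.le w5
    have := hC a5 ha5 b5 hb5 v5 w5
    have := h1A z1 b4 hb4 v4 x4
    have := h1B z1 a5 ha5 u5
    have := h1C z1 b5 hb5 w5
    rcases hu with rfl | rfl | rfl <;> omega
  · have := h1A z1 m z3 hm m2
    rcases hu with rfl | rfl | rfl <;> omega
  · have := hC m z3 b5 hb5 le_rfl w5
    have := hC a5 ha5 b5 hb5 v5 w5
    have := h1A z1 m z3 hm m2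
    have := h1B z1 a5 ha5 u5
    have := h1C z1 b5 hb5 w5
    rcases hu with rfl | rfl | rfl <;> omega
  · have := hC m z3 b4 hb4 le_rfl w4
    have := hC a4 ha4 b4 hb4 u4.le w4
    have := h1A z1 m z3 hm m2
    have := h1A z1 b4 hb4 v4 x4
    rcases hu with rfl | rfl | rfl <;> omega
  · have := hC m z3 b4 hb4 le_rfl w4
    have := hC m z3 b5 hb5 le_rfl w5
    have := hC a4 ha4 b4 hb4 u4.le w4
    have := hC a4 ha4 b5 hb5 u4.le w5
    have := hC a5 ha5 b5 hb5 v5 w5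
    have := h1A z1 m z3 hm m2
    have := h1A z1 b4 hb4 v4 x4
    have := h1B z1 a5 ha5 u5
    have := h1C z1 b5 hb5 w5
    rcases hu with rfl | rfl | rfl <;> omega
  · have := hA a2 ha2 b2 hb2 u2 v2 w2
    have := h1A z1 b2 hb2 v2 w2
    rcases hu with rfl | rfl | rfl <;> omega
  · have := hA a2 ha2 b2 hb2 u2 v2 w2
    have := hB a2 ha2 a5 ha5 u2 u5
    have := hC a5 ha5 b5 hb5 v5 w5
    have := hD b2 hb2 b5 hb5 v2 x2 w5
    have := h1A z1 b2 hb2 v2 w2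
    have := h1B z1 a5 ha5 u5
    have := h1C z1 b5 hb5 w5
    rcases hu with rfl | rfl | rfl <;> omega
  · have := hA a2 ha2 b2 hb2 u2 v2 w2
    have := hA a2 ha2 b4 hb4 u2 v4 x4
    have := hC a4 ha4 b4 hb4 u4.le w4
    have := h1A z1 b2 hb2 v2 w2
    have := h1A z1 b4 hb4 v4 x4
    rcases hu with rfl | rfl | rfl <;> omega
  · have := hA a2 ha2 b2 hb2 u2 v2 w2
    have := hA a2 ha2 b4 hb4 u2 v4 x4
    have := hB a2 ha2 a5 ha5 u2 u5
    have := hC a4 ha4 b4 hb4 u4.le w4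
    have := hC a4 ha4 b5 hb5 u4.le w5
    have := hC a5 ha5 b5 hb5 v5 w5
    have := hD b2 hb2 b5 hb5 v2 x2 w5
    have := h1A z1 b2 hb2 v2 w2
    have := h1A z1 b4 hb4 v4 x4
    have := h1B z1 a5 ha5 u5
    have := h1C z1 b5 hb5 w5
    rcases hu with rfl | rfl | rfl <;> omega
  · have := hA a2 ha2 b2 hb2 u2 v2 w2
    have := hA a2 ha2 m z3 u2 hm m2
    have := h1A z1 b2 hb2 v2 w2
    have := h1A z1 m z3 hm m2
    rcases hu with rfl | rfl | rfl <;> omega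
  · have := hA a2 ha2 b2 hb2 u2 v2 w2
    have := hA a2 ha2 m z3 u2 hm m2
    have := hB a2 ha2 a5 ha5 u2 u5
    have := hC m z3 b5 hb5 le_rfl w5
    have := hC a5 ha5 b5 hb5 v5 w5
    have := hD b2 hb2 b5 hb5 v2 x2 w5
    have := h1A z1 b2 hb2 v2 w2
    have := h1A z1 m z3 hm m2
    have := h1B z1 a5 ha5 u5
    have := h1C z1 b5 hb5 w5
    rcases hu with rfl | rfl | rfl <;> omega
  · have := hA a2 ha2 b2 hb2 u2 v2 w2
    have := hA a2 ha2 m z3 u2 hm m2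
    have := hA a2 ha2 b4 hb4 u2 v4 x4
    have := hC m z3 b4 hb4 le_rfl w4
    have := hC a4 ha4 b4 hb4 u4.le w4
    have := h1A z1 b2 hb2 v2 w2
    have := h1A z1 m z3 hm m2
    have := h1A z1 b4 hb4 v4 x4
    rcases hu with rfl | rfl | rfl <;> omega
  · have := hA a2 ha2 b2 hb2 u2 v2 w2
    have := hA a2 ha2 m z3 u2 hm m2
    have := hA a2 ha2 b4 hb4 u2 v4 x4
    have := hB a2 ha2 a5 ha5 u2 u5
    have := hC m z3 b4 hb4 le_rfl w4
    have := hC m z3 b5 hb5 le_rfl w5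
    have := hC a4 ha4 b4 hb4 u4.le w4
    have := hC a4 ha4 b5 hb5 u4.le w5
    have := hC a5 ha5 b5 hb5 v5 w5
    have := hD b2 hb2 b5 hb5 v2 x2 w5
    have := h1A z1 b2 hb2 v2 w2
    have := h1A z1 m z3 hm m2
    have := h1A z1 b4 hb4 v4 x4
    have := h1B z1 a5 ha5 u5
    have := h1C z1 b5 hb5 w5
    rcases hu with rfl | rfl | rfl <;> omega
  · omega
  · have := hC a5 ha5 b5 hb5 v5 w5
    have := h0D z0 a5 ha5 u5
    rcases hu with rfl | rfl | rfl <;> omega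
  · have := hC a4 ha4 b4 hb4 u4.le w4
    have := h0B z0 a4 ha4 u4
    have := h0C z0 b4 hb4 v4 x4
    rcases hu with rfl | rfl | rfl <;> omega
  · have := hC a4 ha4 b4 hb4 u4.le w4
    have := hC a4 ha4 b5 hb5 u4.le w5
    have := hC a5 ha5 b5 hb5 v5 w5
    have := h0B z0 a4 ha4 u4
    have := h0C z0 b4 hb4 v4 x4
    have := h0D z0 a5 ha5 u5
    rcases hu with rfl | rfl | rfl <;> omega
  · have := h0A z0 m z3 hm le_rfl
    rcases hu with rfl | rfl | rfl <;> omega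
  · have := hC m z3 b5 hb5 le_rfl w5
    have := hC a5 ha5 b5 hb5 v5 w5
    have := h0A z0 m z3 hm le_rfl
    have := h0D z0 a5 ha5 u5
    rcases hu with rfl | rfl | rfl <;> omega
  · have := hC m z3 b4 hb4 le_rfl w4
    have := hC a4 ha4 b4 hb4 u4.le w4
    have := h0A z0 m z3 hm le_rfl
    have := h0B z0 a4 ha4 u4
    have := h0C z0 b4 hb4 v4 x4
    rcases hu with rfl | rfl | rfl <;> omega
  · have := hC m z3 b4 hb4 le_rfl w4
    have := hC m z3 b5 hb5 le_rfl w5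
    have := hC a4 ha4 b4 hb4 u4.le w4
    have := hC a4 ha4 b5 hb5 u4.le w5
    have := hC a5 ha5 b5 hb5 v5 w5
    have := h0A z0 m z3 hm le_rfl
    have := h0B z0 a4 ha4 u4
    have := h0C z0 b4 hb4 v4 x4
    have := h0D z0 a5 ha5 u5
    rcases hu with rfl | rfl | rfl <;> omega
  · have := hA a2 ha2 b2 hb2 u2 v2 w2
    have := h0A z0 b2 hb2 v2 x2.le
    rcases hu with rfl | rfl | rfl <;> omega
  · have := hA a2 ha2 b2 hb2 u2 v2 w2
    have := hB a2 ha2 a5 ha5 u2 u5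
    have := hC a5 ha5 b5 hb5 v5 w5
    have := hD b2 hb2 b5 hb5 v2 x2 w5
    have := h0A z0 b2 hb2 v2 x2.le
    have := h0D z0 a5 ha5 u5
    rcases hu with rfl | rfl | rfl <;> omega
  · have := hA a2 ha2 b2 hb2 u2 v2 w2
    have := hA a2 ha2 b4 hb4 u2 v4 x4
    have := hC a4 ha4 b4 hb4 u4.le w4
    have := h0A z0 b2 hb2 v2 x2.le
    have := h0B z0 a4 ha4 u4
    have := h0C z0 b4 hb4 v4 x4
    rcases hu with rfl | rfl | rfl <;> omega
  · have := hA a2 ha2 b2 hb2 u2 v2 w2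
    have := hA a2 ha2 b4 hb4 u2 v4 x4
    have := hB a2 ha2 a5 ha5 u2 u5
    have := hC a4 ha4 b4 hb4 u4.le w4
    have := hC a4 ha4 b5 hb5 u4.le w5
    have := hC a5 ha5 b5 hb5 v5 w5
    have := hD b2 hb2 b5 hb5 v2 x2 w5
    have := h0A z0 b2 hb2 v2 x2.le
    have := h0B z0 a4 ha4 u4
    have := h0C z0 b4 hb4 v4 x4
    have := h0D z0 a5 ha5 u5
    rcases hu with rfl | rfl | rfl <;> omega
  · have := hA a2 ha2 b2 hb2 u2 v2 w2
    have := hA a2 ha2 m z3 u2 hm m2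
    have := h0A z0 b2 hb2 v2 x2.le
    have := h0A z0 m z3 hm le_rfl
    rcases hu with rfl | rfl | rfl <;> omega
  · have := hA a2 ha2 b2 hb2 u2 v2 w2
    have := hA a2 ha2 m z3 u2 hm m2
    have := hB a2 ha2 a5 ha5 u2 u5
    have := hC m z3 b5 hb5 le_rfl w5
    have := hC a5 ha5 b5 hb5 v5 w5
    have := hD b2 hb2 b5 hb5 v2 x2 w5
    have := h0A z0 b2 hb2 v2 x2.le
    have := h0A z0 m z3 hm le_rfl
    have := h0D z0 a5 ha5 u5
    rcases hu with rfl | rfl | rfl <;> omega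
  · have := hA a2 ha2 b2 hb2 u2 v2 w2
    have := hA a2 ha2 m z3 u2 hm m2
    have := hA a2 ha2 b4 hb4 u2 v4 x4
    have := hC m z3 b4 hb4 le_rfl w4
    have := hC a4 ha4 b4 hb4 u4.le w4
    have := h0A z0 b2 hb2 v2 x2.le
    have := h0A z0 m z3 hm le_rfl
    have := h0B z0 a4 ha4 u4
    have := h0C z0 b4 hb4 v4 x4
    rcases hu with rfl | rfl | rfl <;> omega
  · have := hA a2 ha2 b2 hb2 u2 v2 w2
    have := hA a2 ha2 m z3 u2 hm m2
    have := hA a2 ha2 b4 hb4 u2 v4 x4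
    have := hB a2 ha2 a5 ha5 u2 u5
    have := hC m z3 b4 hb4 le_rfl w4
    have := hC m z3 b5 hb5 le_rfl w5
    have := hC a4 ha4 b4 hb4 u4.le w4
    have := hC a4 ha4 b5 hb5 u4.le w5
    have := hC a5 ha5 b5 hb5 v5 w5
    have := hD b2 hb2 b5 hb5 v2 x2 w5
    have := h0A z0 b2 hb2 v2 x2.le
    have := h0A z0 m z3 hm le_rfl
    have := h0B z0 a4 ha4 u4
    have := h0C z0 b4 hb4 v4 x4
    have := h0D z0 a5 ha5 u5
    rcases hu with rfl | rfl | rfl <;> omega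
  · have := h01 z0 z1
    rcases hu with rfl | rfl | rfl <;> omega
  · have := hC a5 ha5 b5 hb5 v5 w5
    have := h1B z1 a5 ha5 u5
    have := h1C z1 b5 hb5 w5
    have := h01 z0 z1
    have := h0D z0 a5 ha5 u5
    rcases hu with rfl | rfl | rfl <;> omega
  · have := hC a4 ha4 b4 hb4 u4.le w4
    have := h1A z1 b4 hb4 v4 x4
    have := h01 z0 z1
    have := h0B z0 a4 ha4 u4
    have := h0C z0 b4 hb4 v4 x4
    rcases hu with rfl | rfl | rfl <;> omega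
  · have := hC a4 ha4 b4 hb4 u4.le w4
    have := hC a4 ha4 b5 hb5 u4.le w5
    have := hC a5 ha5 b5 hb5 v5 w5
    have := h1A z1 b4 hb4 v4 x4
    have := h1B z1 a5 ha5 u5
    have := h1C z1 b5 hb5 w5
    have := h01 z0 z1
    have := h0B z0 a4 ha4 u4
    have := h0C z0 b4 hb4 v4 x4
    have := h0D z0 a5 ha5 u5
    rcases hu with rfl | rfl | rfl <;> omega
  · have := h1A z1 m z3 hm m2
    have := h01 z0 z1
    have := h0A z0 m z3 hm le_rfl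
    rcases hu with rfl | rfl | rfl <;> omega
  · have := hC m z3 b5 hb5 le_rfl w5
    have := hC a5 ha5 b5 hb5 v5 w5
    have := h1A z1 m z3 hm m2
    have := h1B z1 a5 ha5 u5
    have := h1C z1 b5 hb5 w5
    have := h01 z0 z1
    have := h0A z0 m z3 hm le_rfl
    have := h0D z0 a5 ha5 u5
    rcases hu with rfl | rfl | rfl <;> omega
  · have := hC m z3 b4 hb4 le_rfl w4
    have := hC a4 ha4 b4 hb4 u4.le w4
    have := h1A z1 m z3 hm m2
    have := h1A z1 b4 hb4 v4 x4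
    have := h01 z0 z1
    have := h0A z0 m z3 hm le_rfl
    have := h0B z0 a4 ha4 u4
    have := h0C z0 b4 hb4 v4 x4
    rcases hu with rfl | rfl | rfl <;> omega
  · have := hC m z3 b4 hb4 le_rfl w4
    have := hC m z3 b5 hb5 le_rfl w5
    have := hC a4 ha4 b4 hb4 u4.le w4
    have := hC a4 ha4 b5 hb5 u4.le w5
    have := hC a5 ha5 b5 hb5 v5 w5
    have := h1A z1 m z3 hm m2
    have := h1A z1 b4 hb4 v4 x4
    have := h1B z1 a5 ha5 u5
    have := h1C z1 b5 hb5 w5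
    have := h01 z0 z1
    have := h0A z0 m z3 hm le_rfl
    have := h0B z0 a4 ha4 u4
    have := h0C z0 b4 hb4 v4 x4
    have := h0D z0 a5 ha5 u5
    rcases hu with rfl | rfl | rfl <;> omega
  · have := hA a2 ha2 b2 hb2 u2 v2 w2
    have := h1A z1 b2 hb2 v2 w2
    have := h01 z0 z1
    have := h0A z0 b2 hb2 v2 x2.le
    rcases hu with rfl | rfl | rfl <;> omega
  · have := hA a2 ha2 b2 hb2 u2 v2 w2
    have := hB a2 ha2 a5 ha5 u2 u5
    have := hC a5 ha5 b5 hb5 v5 w5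
    have := hD b2 hb2 b5 hb5 v2 x2 w5
    have := h1A z1 b2 hb2 v2 w2
    have := h1B z1 a5 ha5 u5
    have := h1C z1 b5 hb5 w5
    have := h01 z0 z1
    have := h0A z0 b2 hb2 v2 x2.le
    have := h0D z0 a5 ha5 u5
    rcases hu with rfl | rfl | rfl <;> omega
  · have := hA a2 ha2 b2 hb2 u2 v2 w2
    have := hA a2 ha2 b4 hb4 u2 v4 x4
    have := hC a4 ha4 b4 hb4 u4.le w4
    have := h1A z1 b2 hb2 v2 w2
    have := h1A z1 b4 hb4 v4 x4
    have := h01 z0 z1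
    have := h0A z0 b2 hb2 v2 x2.le
    have := h0B z0 a4 ha4 u4
    have := h0C z0 b4 hb4 v4 x4
    rcases hu with rfl | rfl | rfl <;> omega
  · have := hA a2 ha2 b2 hb2 u2 v2 w2
    have := hA a2 ha2 b4 hb4 u2 v4 x4
    have := hB a2 ha2 a5 ha5 u2 u5
    have := hC a4 ha4 b4 hb4 u4.le w4
    have := hC a4 ha4 b5 hb5 u4.le w5
    have := hC a5 ha5 b5 hb5 v5 w5
    have := hD b2 hb2 b5 hb5 v2 x2 w5
    have := h1A z1 b2 hb2 v2 w2
    have := h1A z1 b4 hb4 v4 x4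
    have := h1B z1 a5 ha5 u5
    have := h1C z1 b5 hb5 w5
    have := h01 z0 z1
    have := h0A z0 b2 hb2 v2 x2.le
    have := h0B z0 a4 ha4 u4
    have := h0C z0 b4 hb4 v4 x4
    have := h0D z0 a5 ha5 u5
    rcases hu with rfl | rfl | rfl <;> omega
  · have := hA a2 ha2 b2 hb2 u2 v2 w2
    have := hA a2 ha2 m z3 u2 hm m2
    have := h1A z1 b2 hb2 v2 w2
    have := h1A z1 m z3 hm m2
    have := h01 z0 z1
    have := h0A z0 b2 hb2 v2 x2.le
    have := h0A z0 m z3 hm le_rfl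
    rcases hu with rfl | rfl | rfl <;> omega
  · have := hA a2 ha2 b2 hb2 u2 v2 w2
    have := hA a2 ha2 m z3 u2 hm m2
    have := hB a2 ha2 a5 ha5 u2 u5
    have := hC m z3 b5 hb5 le_rfl w5
    have := hC a5 ha5 b5 hb5 v5 w5
    have := hD b2 hb2 b5 hb5 v2 x2 w5
    have := h1A z1 b2 hb2 v2 w2
    have := h1A z1 m z3 hm m2
    have := h1B z1 a5 ha5 u5
    have := h1C z1 b5 hb5 w5
    have := h01 z0 z1
    have := h0A z0 b2 hb2 v2 x2.le
    have := h0A z0 m z3 hm le_rfl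
    have := h0D z0 a5 ha5 u5
    rcases hu with rfl | rfl | rfl <;> omega
  · have := hA a2 ha2 b2 hb2 u2 v2 w2
    have := hA a2 ha2 m z3 u2 hm m2
    have := hA a2 ha2 b4 hb4 u2 v4 x4
    have := hC m z3 b4 hb4 le_rfl w4
    have := hC a4 ha4 b4 hb4 u4.le w4
    have := h1A z1 b2 hb2 v2 w2
    have := h1A z1 m z3 hm m2
    have := h1A z1 b4 hb4 v4 x4
    have := h01 z0 z1
    have := h0A z0 b2 hb2 v2 x2.le
    have := h0A z0 m z3 hm le_rfl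
    have := h0B z0 a4 ha4 u4
    have := h0C z0 b4 hb4 v4 x4
    rcases hu with rfl | rfl | rfl <;> omega
  · have := hA a2 ha2 b2 hb2 u2 v2 w2
    have := hA a2 ha2 m z3 u2 hm m2
    have := hA a2 ha2 b4 hb4 u2 v4 x4
    have := hB a2 ha2 a5 ha5 u2 u5
    have := hC m z3 b4 hb4 le_rfl w4
    have := hC m z3 b5 hb5 le_rfl w5
    have := hC a4 ha4 b4 hb4 u4.le w4
    have := hC a4 ha4 b5 hb5 u4.le w5
    have := hC a5 ha5 b5 hb5 v5 w5
    have := hD b2 hb2 b5 hb5 v2 x2 w5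
    have := h1A z1 b2 hb2 v2 w2
    have := h1A z1 m z3 hm m2
    have := h1A z1 b4 hb4 v4 x4
    have := h1B z1 a5 ha5 u5
    have := h1C z1 b5 hb5 w5
    have := h01 z0 z1
    have := h0A z0 b2 hb2 v2 x2.le
    have := h0A z0 m z3 hm le_rfl
    have := h0B z0 a4 ha4 u4
    have := h0C z0 b4 hb4 v4 x4
    have := h0D z0 a5 ha5 u5
    rcases hu with rfl | rfl | rfl <;> omega

lemma bb (hc : G.Connected) (n : ℕ) (w : ℕ → V) (hw : Lip G w)
    (h1 : 6 * n + 11 ≤ G.dist (w 0) (w (6 * n + 11)))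
    (h2 : 6 * n + 11 ≤ G.dist (w (3 * n + 5)) (w (9 * n + 16)))
    (h3 : 6 * n + 11 ≤ G.dist (w (6 * n + 10)) (w (12 * n + 21))) : MP G (3 * (n + 2)) := by
  refine mp_of_idx hc _ (fun i => w (if i = 0 then 3 * n + 2 else if i = 1 then 3 * n + 5 else
    3 * n + 3 * i + 4)) ?_
  intro r hr hrk T hT hd
  have d2 : ∀ i ∈ T, ∀ j ∈ T, 2 ≤ i → 2 ≤ j →
      G.dist (w (3 * n + 3 * i + 4)) (w (3 * n + 3 * j + 4)) ≤ 2 * r := by
    intro i hi j hj a1 a2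
    have := hd i hi j hj
    rwa [if_neg (by omega), if_neg (by omega), if_neg (by omega), if_neg (by omega)] at this
  have d1 : 1 ∈ T → ∀ j ∈ T, 2 ≤ j → G.dist (w (3 * n + 5)) (w (3 * n + 3 * j + 4)) ≤ 2 * r := by
    intro hi j hj a2
    have := hd 1 hi j hj
    rwa [if_neg (by omega), if_pos rfl, if_neg (by omega), if_neg (by omega)] at this
  have d0 : 0 ∈ T → ∀ j ∈ T, 2 ≤ j → G.dist (w (3 * n + 2)) (w (3 * n + 3 * j + 4)) ≤ 2 * r := by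
    intro hi j hj a2
    have := hd 0 hi j hj
    rwa [if_pos rfl, if_neg (by omega), if_neg (by omega)] at this
  have d01 : 0 ∈ T → 1 ∈ T → G.dist (w (3 * n + 2)) (w (3 * n + 5)) ≤ 2 * r := by
    intro hi hj
    have := hd 0 hi 1 hj
    rwa [if_pos rfl, if_neg (by omega), if_pos rfl] at this
  clear hd
  have q1 : ∀ {s t}, G.dist (w s) (w t) ≤ 2 * r → _ :=
    fun h => far hc h1 (hw.le' hc _ _) h (hw.le' hc _ _)
  have q2 : ∀ {s t}, G.dist (w s) (w t) ≤ 2 * r → _ :=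
    fun h => far hc h2 (hw.le' hc _ _) h (hw.le' hc _ _)
  have q3 : ∀ {s t}, G.dist (w s) (w t) ≤ 2 * r → _ :=
    fun h => far hc h3 (hw.le' hc _ _) h (hw.le' hc _ _)
  clear h1 h2 h3
  refine arith (n + 2) r (by omega) hr hrk T hT ?_ ?_ ?_ ?_ ?_ ?_ ?_ ?_ ?_ ?_ ?_ ?_
  · intro i hi j hj a1 a2 a3
    have := q2 (d2 i hi j hj a1 a2); omega
  · intro i hi j hj a1 a2
    have := q2 (d2 i hi j hj a1 (by omega)); omega
  · intro i hi j hj a1 a2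
    have := q3 (d2 i hi j hj (by omega) (by omega)); have := hT j hj; omega
  · intro i hi j hj a1 a2 a3
    have := q3 (d2 i hi j hj (by omega) (by omega)); have := hT j hj; omega
  · intro hi j hj a1 a2
    have := q2 (d1 hi j hj a1); omega
  · intro hi j hj a1
    have := q2 (d1 hi j hj (by omega)); omega
  · intro hi j hj a1
    have := q3 (d1 hi j hj (by omega)); have := hT j hj; omega
  · intro hi hj
    have := q1 (d01 hi hj); omega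
  · intro hi j hj a1 a2
    have := q1 (d0 hi j hj a1); omega
  · intro hi j hj a1
    have := q1 (d0 hi j hj (by omega)); omega
  · intro hi j hj a1 a2
    have := q2 (d0 hi j hj a1); omega
  · intro hi j hj a1
    have := q2 (d0 hi j hj (by omega)); omega

end Pool.Agent.H.MP_bcf3b3_co
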