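import Pool.Agent.H.MP_bcf3b3_co.B

set_option autoImplicit false

namespace Pool.Agent.H.MP_bcf3b3_co
open Classical

variable {V : Type} {G : SimpleGraph V}

lemma mp_one (hc : G.Connected) : MP G 1 := by
  obtain ⟨v⟩ := hc.nonempty
  exact mp_of_idx hc 1 (fun _ => v) (fun r h1 h2 => by omega)

lemma Lip.rev {x : ℕ → V} (h : Lip G x) (R : ℕ) : Lip G (fun i => x (R - i)) := by
  intro i
  by_cases hi : i < R
  · have := h (R - (i + 1))
    rw [show R - (i + 1) + 1 = R - i by omega, SimpleGraph.dist_comm] at this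
    exact this
  · simp only [show R - i = 0 by omega, show R - (i + 1) = 0 by omega]; simp

lemma mp_of_rad (hc : G.Connected) (k : ℕ) (hk : 1 ≤ k) (hk3 : k ≠ 3)
    (hrad : ∀ v, ∃ u, 2 * k - 1 ≤ G.dist v u) : MP G k := by
  obtain ⟨v0⟩ := hc.nonempty
  obtain ⟨u0, hu0⟩ := hrad v0
  obtain ⟨x, _, hx, hx'⟩ := geo hc _ _ _ hu0
  obtain ⟨z, hz⟩ := hrad (x (k - 1))
  obtain ⟨y, hy0, hy, hy'⟩ := geo hc _ _ _ hz
  have h3 : k = 3 * (k / 3) + 1 ∨ k = 3 * (k / 3) + 2 ∨ k = 3 * (k / 3) := by omega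
  rcases h3 with h3 | h3 | h3
  · exact spider hc k (k / 3) 0 _ (2 * k - 1) (k - 1) x y hx hy (by omega) (by omega) hy0 hx' hy'
      (Or.inl ⟨h3, rfl, rfl⟩)
  · exact spider hc k (k / 3) 0 _ (2 * k - 1) (k - 1) x y hx hy (by omega) (by omega) hy0 hx' hy'
      (Or.inr (Or.inl ⟨h3, rfl, rfl⟩))
  by_cases hA : k ≤ G.dist (x (2 * k - 1)) (y (2 * k - 1))
  · exact spider hc k (k / 3) 2 _ (2 * k - 1) (k - 1) x y hx hy (by omega) (by omega) hy0 hx' hy'
      (Or.inr (Or.inr ⟨h3, rfl, rfl, hA⟩))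
  obtain ⟨z', hz'⟩ := hrad (x k)
  obtain ⟨y', hy0', hy1, hy1'⟩ := geo hc _ _ _ hz'
  by_cases hA' : k ≤ G.dist (x 0) (y' (2 * k - 1))
  · refine spider hc k (k / 3) 2 _ (2 * k - 1) (k - 1) (fun i => x (2 * k - 1 - i)) y' (hx.rev _) hy1
      (by omega) (by omega) ?_ ?_ hy1' (Or.inr (Or.inr ⟨h3, rfl, rfl, ?_⟩))
    · rw [hy0']; show x k = x (2 * k - 1 - (k - 1)); congr 1; omega
    · simp only [Nat.sub_zero, Nat.sub_self]; rwa [SimpleGraph.dist_comm]
    · simp only [Nat.sub_self]; exact hA'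
  obtain ⟨n, rfl⟩ : ∃ n, k = 3 * (n + 2) := ⟨k / 3 - 2, by omega⟩
  rw [show 2 * (3 * (n + 2)) - 1 = 6 * n + 11 by omega] at *
  rw [show 3 * (n + 2) - 1 = 3 * n + 5 by omega] at *
  obtain ⟨w1, a0, a1, a2⟩ := path hc (x (6 * n + 11)) (y (6 * n + 11))
  obtain ⟨w0, b0, b1, b2⟩ := path hc (x 0) (y' (6 * n + 11))
  have a3 := a2 (3 * n + 5) (by omega)
  have b3 := b2 (3 * n + 5) (by omega)
  refine bb hc n (fun i => if i ≤ 3 * n + 5 then w0 (3 * n + 5 - i) else
    if i ≤ 9 * n + 16 then x (i - (3 * n + 5)) else w1 (i - (9 * n + 16))) ?_ ?_ ?_ ?_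
  · intro i
    by_cases c1 : i + 1 ≤ 3 * n + 5
    · simp only [c1, show i ≤ 3 * n + 5 by omega, if_true]
      exact b1.rev _ i
    · by_cases c2 : i = 3 * n + 5
      · subst c2
        simp only [c1, le_refl, if_true, if_false, show 3 * n + 5 + 1 ≤ 9 * n + 16 by omega,
          Nat.sub_self, b0, Nat.add_sub_cancel_left]
        exact hx 0
      · by_cases c3 : i + 1 ≤ 9 * n + 16
        · simp only [c1, c3, show ¬ i ≤ 3 * n + 5 by omega, show i ≤ 9 * n + 16 by omega,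
            if_true, if_false]
          rw [show i + 1 - (3 * n + 5) = i - (3 * n + 5) + 1 by omega]
          exact hx _
        · by_cases c4 : i = 9 * n + 16
          · subst c4
            simp only [c1, c3, show ¬ 9 * n + 16 ≤ 3 * n + 5 by omega, le_refl, if_true, if_false,
              Nat.add_sub_cancel_left]
            rw [show 9 * n + 16 - (3 * n + 5) = 6 * n + 11 by omega, ← a0]
            exact a1 0
          · simp only [c1, c3, show ¬ i ≤ 3 * n + 5 by omega, show ¬ i ≤ 9 * n + 16 by omega,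
              if_false]
            rw [show i + 1 - (9 * n + 16) = i - (9 * n + 16) + 1 by omega]
            exact a1 _
  · simp only [Nat.zero_le, if_true, Nat.sub_zero, b3, show ¬ 6 * n + 11 ≤ 3 * n + 5 by omega,
      show 6 * n + 11 ≤ 9 * n + 16 by omega, if_false]
    rw [show 6 * n + 11 - (3 * n + 5) = 3 * (n + 2) by omega, ← hy0', SimpleGraph.dist_comm]
    exact hy1'
  · simp only [le_refl, if_true, Nat.sub_self, b0, show ¬ 9 * n + 16 ≤ 3 * n + 5 by omega, if_false]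
    rw [show 9 * n + 16 - (3 * n + 5) = 6 * n + 11 by omega]
    exact hx'
  · by_cases hn : 6 * n + 10 ≤ 3 * n + 5
    · omega
    simp only [hn, show 6 * n + 10 ≤ 9 * n + 16 by omega, show ¬ 12 * n + 21 ≤ 3 * n + 5 by omega,
      show ¬ 12 * n + 21 ≤ 9 * n + 16 by omega, if_true, if_false]
    rw [show 6 * n + 10 - (3 * n + 5) = 3 * n + 5 by omega,
      show 12 * n + 21 - (9 * n + 16) = 3 * n + 5 by omega, a3, ← hy0]
    exact hy'

lemma mp_three (hc : G.Connected) (a b w : V) (h1 : 5 ≤ G.dist a b) (h2 : 3 ≤ G.dist w a)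
    (h3 : 3 ≤ G.dist w b) : MP G 3 := by
  refine mp_of_idx hc 3 (fun i => if i = 0 then a else if i = 1 then b else w) ?_
  intro r hr hr3 T hT hd
  have e01 : ¬ (0 ∈ T ∧ 1 ∈ T) := fun h => by
    have := hd 0 h.1 1 h.2; simp at this; omega
  have hsub : ∀ S : Finset ℕ, (∀ i, i < 3 → i ∈ T → i ∈ S) → T.card ≤ S.card :=
    fun S h => Finset.card_le_card fun i hi => h i (hT i hi) hi
  by_cases hr2 : r = 2
  · by_cases h0 : 0 ∈ T
    · refine (hsub {0, 2} fun i hi hi' => ?_).trans (by simp [hr2])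
      interval_cases i <;> simp_all
    · refine (hsub {1, 2} fun i hi hi' => ?_).trans (by simp [hr2])
      interval_cases i <;> simp_all
  · have e02 : ¬ (2 ∈ T ∧ 0 ∈ T) := fun h => by
      have := hd 2 h.1 0 h.2; simp at this; omega
    have e12 : ¬ (2 ∈ T ∧ 1 ∈ T) := fun h => by
      have := hd 2 h.1 1 h.2; simp at this; omega
    clear hd
    by_cases h0 : 0 ∈ T
    · refine (hsub {0} fun i hi hi' => ?_).trans (by simp [hr])
      interval_cases i <;> simp_all
    · by_cases h1 : 1 ∈ T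
      · refine (hsub {1} fun i hi hi' => ?_).trans (by simp [hr])
        interval_cases i <;> simp_all
      · refine (hsub {2} fun i hi hi' => ?_).trans (by simp [hr])
        interval_cases i <;> simp_all

theorem main (V : Type) [Fintype V] (G : SimpleGraph V) (hc : G.Connected) :
    ∃ (f : V → ℕ) (k : ℕ), (∀ u : V, ∃ v : V, 0 < f v ∧ G.dist u v ≤ f v) ∧ MP G k ∧
      ∑ v, f v ≤ 2 * k := by
  obtain ⟨v0⟩ := hc.nonempty
  have hex : ∃ n, ∃ v, ∀ u, G.dist v u ≤ n :=
    ⟨Finset.univ.sup (fun u => G.dist v0 u), v0, fun u =>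
      Finset.le_sup (f := fun u => G.dist v0 u) (Finset.mem_univ u)⟩
  obtain ⟨c, hcen⟩ := Nat.find_spec hex
  have hmin : ∀ n, n < Nat.find hex → ∀ v, ∃ u, n + 1 ≤ G.dist v u := by
    intro n hn v
    have := Nat.find_min hex hn
    push Not at this
    exact this v
  generalize Nat.find hex = ρ at hcen hmin
  have one : ∀ k, 1 ≤ k → ρ ≤ 2 * k → MP G k → ∃ (f : V → ℕ) (k : ℕ),
      (∀ u : V, ∃ v : V, 0 < f v ∧ G.dist u v ≤ f v) ∧ MP G k ∧ ∑ v, f v ≤ 2 * k := by
    intro k h1 h2 h3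
    refine ⟨fun v => if v = c then 2 * k else 0, k, fun u => ⟨c, by simp; omega, ?_⟩, h3, by simp⟩
    have := hcen u
    rw [SimpleGraph.dist_comm]; simp only [if_true]; omega
  by_cases h0 : ρ ≤ 2
  · exact one 1 le_rfl h0 (mp_one hc)
  by_cases h3 : (ρ + 1) / 2 = 3
  · obtain ⟨b, hb⟩ := hmin 4 (by omega) v0
    by_cases hw : ∃ w, 3 ≤ G.dist w v0 ∧ 3 ≤ G.dist w b
    · obtain ⟨w, h1, h2⟩ := hw
      exact one 3 (by omega) (by omega) (mp_three hc v0 b w hb h1 h2)
    · push Not at hw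
      refine ⟨fun v => (if v = v0 then 2 else 0) + (if v = b then 2 else 0), 2, fun u => ?_,
        mp_of_rad hc 2 (by omega) (by omega) (hmin 2 (by omega)), ?_⟩
      · by_cases hu : 3 ≤ G.dist u v0
        · have := hw u hu
          exact ⟨b, by simp, by simp only [if_true]; omega⟩
        · exact ⟨v0, by simp, by simp only [if_true]; omega⟩
      · rw [Finset.sum_add_distrib]; simp
  · refine one ((ρ + 1) / 2) (by omega) (by omega) (mp_of_rad hc _ (by omega) h3 fun v => ?_)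
    obtain ⟨u, hu⟩ := hmin (ρ - 1) (by omega) v
    exact ⟨u, by omega⟩

end Pool.Agent.H.MP_bcf3b3_co
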